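import Pool.Agent.Helper33.GC.Main

set_option autoImplicit false

/-- Dynamical Mordell-Lang with gaps, for endomorphisms of complex projective space and
subvarieties of dimension at most one (any subvariety when the projective space has dimension at
most two). -/
theorem Pool.Agent.Results.MP_b15c9e_ag.GapCurves.result
    (N d : ℕ) (hd : 2 ≤ d)
    (f : Fin (N + 1) → MvPolynomial (Fin (N + 1)) ℂ) (hf : ∀ i, (f i).IsHomogeneous d)
    (hnz : ∀ x : Fin (N + 1) → ℂ, (∀ i, MvPolynomial.eval x (f i) = 0) → x = 0)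
    (S : Set (MvPolynomial (Fin (N + 1)) ℂ)) (hS : ∀ g ∈ S, ∃ e : ℕ, g.IsHomogeneous e)
    (hdim : N ≤ 2 ∨ ringKrullDim (MvPolynomial (Fin (N + 1)) ℂ ⧸ Ideal.span S) ≤ 2)
    (a : Fin (N + 1) → ℂ) (ha : a ≠ 0) :
    ∃ (T : Finset (ℕ × ℕ)) (r : ℕ) (L : Fin r → Set ℕ) (B : ℕ),
      (∀ i, ∀ n ∈ L i, ∀ m ∈ L i, n < m → 2 * n ≤ m + B) ∧
      {n : ℕ | ∀ g ∈ S,
          MvPolynomial.eval
            ((fun x : Fin (N + 1) → ℂ => fun i => MvPolynomial.eval x (f i))^[n] a) g = 0}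
        = {n : ℕ | ∃ p ∈ T, ∃ m : ℕ, n = p.1 * m + p.2} ∪ ⋃ i, L i := by
  obtain ⟨T, r, L, hL, h⟩ :=
    Pool.Agent.Helper33.GC.good_complex N d hd f hf hnz S hS hdim a ha
  choose B hB using hL
  refine ⟨T, r, L, ∑ i, B i, fun i n hn m hm hnm => ?_, h⟩
  have h1 := hB i n hn m hm hnm
  have h2 : B i ≤ ∑ i, B i :=
    Finset.single_le_sum (f := B) (fun _ _ => Nat.zero_le _) (Finset.mem_univ i)
  omega
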